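import Mathlib

/-!
# MP_4b1e7e_an: Möbius transforms of convex maps — definitions
-/

namespace Pool.Agent.MConv

open Metric Set
open scoped ENNReal

/-- The class `S^c` of normalised convex maps: `f` is analytic and injective on the open unit
disc, `f 0 = 0`, `f' 0 = 1`, and the image of the disc is convex. -/
def ConvexMaps : Set (ℂ → ℂ) :=
  {f | DifferentiableOn ℂ f (ball 0 1) ∧ InjOn f (ball 0 1) ∧ f 0 = 0 ∧ deriv f 0 = 1 ∧
    Convex ℝ (f '' ball 0 1)}

/-- The class `Ŝ^c`: all `f / (1 - f / w)` with `f ∈ S^c` and `w` a complex number outside the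
image of the disc, together with `S^c` itself (the case `w = ∞`). -/
def HatClass : Set (ℂ → ℂ) :=
  {g | g ∈ ConvexMaps ∨ ∃ f ∈ ConvexMaps, ∃ w : ℂ, w ∉ f '' ball 0 1 ∧
    g = fun z => f z / (1 - f z / w)}

/-- The `n`-th Taylor coefficient at `0`. -/
noncomputable def coeff (g : ℂ → ℂ) (n : ℕ) : ℂ := iteratedDeriv n g 0 / (n.factorial : ℂ)

/-- `A_n`, the supremum of `|a_n|` over the class `Ŝ^c`, in `[0, ∞]`. -/
noncomputable def A (n : ℕ) : ℝ≥0∞ := ⨆ g ∈ HatClass, ENNReal.ofReal ‖coeff g n‖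

/-- `B`, the supremum of the `A_n`, `n ≥ 2`, in `[0, ∞]`. -/
noncomputable def B : ℝ≥0∞ := ⨆ n ≥ 2, A n

end Pool.Agent.MConv
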