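import Mathlib
import Pool.Agent.MConv.Defs

namespace Pool.Agent.MConv

open Metric Set Complex

section
variable (x : ℝ)

/-- `e^{ix}` -/
noncomputable def ee : ℂ := ⟨Real.cos x, Real.sin x⟩
/-- `e^{-ix}` -/
noncomputable def ef : ℂ := ⟨Real.cos x, -Real.sin x⟩

noncomputable def uu (z : ℂ) : ℂ := (1 + ee x * z) / (1 + ef x * z)

noncomputable def ff (z : ℂ) : ℂ := Complex.log (uu x z) / (2 * I * (Real.sin x : ℂ))

lemma ee_mul_ef : ee x * ef x = 1 := by
  apply Complex.ext
  · simp [ee, ef]; nlinarith [Real.sin_sq_add_cos_sq x]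
  · simp [ee, ef]; ring

lemma ee_sub_ef : ee x - ef x = 2 * I * (Real.sin x : ℂ) := by
  apply Complex.ext
  · simp only [ee, ef, Complex.sub_re, Complex.mul_re, Complex.mul_im, Complex.I_re, Complex.I_im,
      Complex.ofReal_re, Complex.ofReal_im, Complex.re_ofNat, Complex.im_ofNat]
    ring
  · simp only [ee, ef, Complex.sub_im, Complex.mul_re, Complex.mul_im, Complex.I_re, Complex.I_im,
      Complex.ofReal_re, Complex.ofReal_im, Complex.re_ofNat, Complex.im_ofNat]
    ring

lemma norm_ef : ‖ef x‖ = 1 := by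
  rw [ef, Complex.norm_def, Complex.normSq_mk, Real.sqrt_eq_one]
  nlinarith [Real.sin_sq_add_cos_sq x]

lemma norm_ee : ‖ee x‖ = 1 := by
  rw [ee, Complex.norm_def, Complex.normSq_mk, Real.sqrt_eq_one]
  nlinarith [Real.sin_sq_add_cos_sq x]

lemma conj_div_key (e p q : ℂ) (hq : q ≠ 0) :
    e * (starRingEnd ℂ) (p / q) = (e * (starRingEnd ℂ) p * q) / (Complex.normSq q : ℂ) := by
  have hc : (starRingEnd ℂ) q ≠ 0 := (map_ne_zero _).mpr hq
  rw [Complex.normSq_eq_conj_mul_self, map_div₀, mul_div_assoc', div_eq_div_iff hc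
    (mul_ne_zero hc hq)]
  ring

lemma den_ne {z : ℂ} (hz : ‖z‖ < 1) : 1 + ef x * z ≠ 0 := by
  intro h
  have h1 : ef x * z = -1 := by linear_combination h
  have h2 : ‖ef x * z‖ = 1 := by rw [h1]; simp
  rw [norm_mul, norm_ef, one_mul] at h2
  linarith

/-- the half plane condition -/
lemma im_pos_of_ball (hs : 0 < Real.sin x) {z : ℂ} (hz : ‖z‖ < 1) :
    0 < (ee x * (starRingEnd ℂ) (uu x z)).im := by
  have hq := den_ne x hz
  have hn : 0 < Complex.normSq (1 + ef x * z) := Complex.normSq_pos.mpr hq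
  have h1 : ee x * (starRingEnd ℂ) (uu x z) =
      (ee x * (starRingEnd ℂ) (1 + ee x * z) * (1 + ef x * z)) /
        (Complex.normSq (1 + ef x * z) : ℂ) := conj_div_key _ _ _ hq
  have h2 : (ee x * (starRingEnd ℂ) (1 + ee x * z) * (1 + ef x * z)).im =
      Real.sin x * (1 - Complex.normSq z) := by
    have h := Real.sin_sq_add_cos_sq x
    simp only [ee, ef, Complex.normSq_apply, Complex.mul_im, Complex.mul_re, Complex.add_re,
      Complex.add_im, Complex.one_re, Complex.one_im, map_add, map_mul, map_one, Complex.conj_re,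
      Complex.conj_im]
    generalize Real.sin x = s at *
    generalize Real.cos x = c at *
    generalize z.re = a
    generalize z.im = b
    have h' : s ^ 2 = 1 - c ^ 2 := by linarith
    have hs3 : s ^ 3 = s * (1 - c ^ 2) := by rw [pow_succ, h']; ring
    ring_nf
    rw [hs3]
    ring_nf
    try nlinarith [h']
  rw [h1, Complex.div_ofReal_im, h2]
  have hz2 : Complex.normSq z < 1 := by
    rw [Complex.normSq_eq_norm_sq]; nlinarith [norm_nonneg z]
  have : 0 < Real.sin x * (1 - Complex.normSq z) := mul_pos hs (by linarith)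
  positivity

lemma arg_mem (hx0 : 0 < x) (hxp : x < Real.pi) {u : ℂ}
    (h : 0 < (ee x * (starRingEnd ℂ) u).im) : x - Real.pi < u.arg ∧ u.arg < x := by
  have hpi := Real.pi_pos
  have h1 : (ee x * (starRingEnd ℂ) u).im = ‖u‖ * Real.sin (x - u.arg) := by
    have hre : u.re = ‖u‖ * Real.cos u.arg := by
      rcases eq_or_ne u 0 with h0 | h0
      · simp [h0]
      · rw [Complex.cos_arg h0]; field_simp [norm_ne_zero_iff.mpr h0]
    have him : u.im = ‖u‖ * Real.sin u.arg := by
      rw [Complex.sin_arg]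
      rcases eq_or_ne u 0 with h0 | h0
      · simp [h0]
      · field_simp [norm_ne_zero_iff.mpr h0]
    rw [Real.sin_sub]
    simp only [ee, Complex.mul_im, Complex.conj_re, Complex.conj_im]
    rw [hre, him]
    ring
  rw [h1] at h
  have h2 : 0 < Real.sin (x - u.arg) := by
    by_contra hcon
    have := mul_nonpos_of_nonneg_of_nonpos (norm_nonneg u) (not_lt.mp hcon)
    linarith
  have h3 := Complex.neg_pi_lt_arg u
  have h4 := Complex.arg_le_pi u
  constructor
  · by_contra hcon
    have h5 : Real.pi ≤ x - u.arg := by linarith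
    have h6 : 0 ≤ Real.sin (x - u.arg - Real.pi) :=
      Real.sin_nonneg_of_nonneg_of_le_pi (by linarith) (by linarith)
    rw [Real.sin_sub_pi] at h6
    linarith
  · by_contra hcon
    have h5 : x - u.arg ≤ 0 := by linarith
    have h6 := Real.sin_nonpos_of_nonpos_of_neg_pi_le h5 (by linarith)
    linarith

lemma mem_slit (hx0 : 0 < x) (hxp : x < Real.pi) {u : ℂ}
    (h : 0 < (ee x * (starRingEnd ℂ) u).im) : u ∈ slitPlane := by
  have h1 := arg_mem x hx0 hxp h
  rw [Complex.mem_slitPlane_iff_arg]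
  refine ⟨by linarith [h1.2] |> fun (h : u.arg < Real.pi) => h.ne, ?_⟩
  rintro rfl
  simp at h

lemma ff_mul (hs : Real.sin x ≠ 0) (z : ℂ) :
    2 * I * (Real.sin x : ℂ) * ff x z = Complex.log (uu x z) := by
  have : (2 * I * (Real.sin x : ℂ)) ≠ 0 := by
    simp only [ne_eq, mul_eq_zero, not_or]
    exact ⟨⟨two_ne_zero, I_ne_zero⟩, by exact_mod_cast hs⟩
  rw [ff, mul_div_cancel₀ _ this]

lemma im_two (ζ : ℂ) : (2 * I * (Real.sin x : ℂ) * ζ).im = 2 * Real.sin x * ζ.re := by
  simp only [Complex.mul_im, Complex.mul_re, Complex.I_re, Complex.I_im, Complex.ofReal_re,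
    Complex.ofReal_im, Complex.re_ofNat, Complex.im_ofNat]
  ring

lemma image_eq (hx0 : 0 < x) (hxp : x < Real.pi) :
    ff x '' ball 0 1 =
      {ζ : ℂ | x - Real.pi < 2 * Real.sin x * ζ.re ∧ 2 * Real.sin x * ζ.re < x} := by
  have hs : 0 < Real.sin x := Real.sin_pos_of_pos_of_lt_pi hx0 hxp
  have hpi := Real.pi_pos
  ext ζ
  constructor
  · rintro ⟨z, hz, rfl⟩
    rw [mem_ball_zero_iff] at hz
    have h1 := arg_mem x hx0 hxp (im_pos_of_ball x hs hz)
    have h2 := im_two x (ff x z)
    rw [ff_mul x hs.ne', Complex.log_im] at h2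
    rw [Set.mem_ofPred_eq, ← h2]
    exact h1
  · rintro ⟨h1, h2⟩
    set L : ℂ := 2 * I * (Real.sin x : ℂ) * ζ with hL
    have hLim : L.im = 2 * Real.sin x * ζ.re := im_two x ζ
    set u : ℂ := Complex.exp L with hu
    have hlog : Complex.log u = L := Complex.log_exp (by rw [hLim]; linarith) (by rw [hLim]; linarith)
    have hpos : 0 < (ee x * (starRingEnd ℂ) u).im := by
      have : (ee x * (starRingEnd ℂ) u).im = Real.exp L.re * Real.sin (x - L.im) := by
        rw [hu, Real.sin_sub]
        simp only [ee, Complex.mul_im, Complex.conj_re, Complex.conj_im, Complex.exp_re,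
          Complex.exp_im]
        ring
      rw [this]
      refine mul_pos (Real.exp_pos _) (Real.sin_pos_of_pos_of_lt_pi ?_ ?_)
      · rw [hLim]; linarith
      · rw [hLim]; linarith
    have hid : Complex.normSq (ee x - ef x * u) - Complex.normSq (u - 1) =
        4 * Real.sin x * (ee x * (starRingEnd ℂ) u).im := by
      have h := Real.sin_sq_add_cos_sq x
      simp only [ee, ef, Complex.normSq_apply, Complex.mul_im, Complex.mul_re, Complex.sub_re,
        Complex.sub_im, Complex.one_re, Complex.one_im, Complex.conj_re, Complex.conj_im]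
      generalize Real.sin x = s at *
      generalize Real.cos x = c at *
      generalize u.re = a
      generalize u.im = b
      linear_combination (1 + a ^ 2 + b ^ 2 - 2 * a) * h
    have hlt : Complex.normSq (u - 1) < Complex.normSq (ee x - ef x * u) := by
      have : 0 < 4 * Real.sin x * (ee x * (starRingEnd ℂ) u).im := by positivity
      linarith
    have hq : ee x - ef x * u ≠ 0 := by
      intro h0
      rw [h0, map_zero] at hlt
      exact absurd (Complex.normSq_nonneg (u - 1)) (not_le.mpr hlt)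
    refine ⟨(u - 1) / (ee x - ef x * u), ?_, ?_⟩
    · rw [mem_ball_zero_iff, norm_div, div_lt_one (norm_pos_iff.mpr hq)]
      rw [Complex.normSq_eq_norm_sq, Complex.normSq_eq_norm_sq] at hlt
      exact lt_of_pow_lt_pow_left₀ 2 (norm_nonneg _) hlt
    · have he : ee x - ef x ≠ 0 := by
        rw [ee_sub_ef]
        simp only [ne_eq, mul_eq_zero, not_or]
        exact ⟨⟨two_ne_zero, I_ne_zero⟩, by exact_mod_cast hs.ne'⟩
      have huu : uu x ((u - 1) / (ee x - ef x * u)) = u := by
        have h1 : 1 + ee x * ((u - 1) / (ee x - ef x * u)) =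
            u * (ee x - ef x) / (ee x - ef x * u) := by
          rw [eq_div_iff hq, add_mul, one_mul, mul_assoc, div_mul_cancel₀ _ hq]; ring
        have h2 : 1 + ef x * ((u - 1) / (ee x - ef x * u)) =
            (ee x - ef x) / (ee x - ef x * u) := by
          rw [eq_div_iff hq, add_mul, one_mul, mul_assoc, div_mul_cancel₀ _ hq]; ring
        rw [uu, h1, h2, div_div_div_cancel_right₀ hq, mul_div_cancel_right₀ _ he]
      have h3 := ff_mul x hs.ne' ((u - 1) / (ee x - ef x * u))
      rw [huu, hlog, hL] at h3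
      have hne : (2 * I * (Real.sin x : ℂ)) ≠ 0 := by rw [← ee_sub_ef]; exact he
      exact mul_left_cancel₀ hne h3

lemma hasDerivAt_ff (hs : Real.sin x ≠ 0) {z : ℂ} (hz : 1 + ef x * z ≠ 0)
    (hu : uu x z ∈ slitPlane) :
    HasDerivAt (ff x) (1 / ((1 + ee x * z) * (1 + ef x * z))) z := by
  have hne : (2 * I * (Real.sin x : ℂ)) ≠ 0 := by
    simp only [ne_eq, mul_eq_zero, not_or]
    exact ⟨⟨two_ne_zero, I_ne_zero⟩, by exact_mod_cast hs⟩
  have hnum : 1 + ee x * z ≠ 0 := by
    intro h
    have : uu x z = 0 := by rw [uu, h, zero_div]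
    rw [this] at hu
    exact Complex.slitPlane_ne_zero hu rfl
  have h1 : HasDerivAt (fun z => 1 + ee x * z) (ee x) z := by
    simpa using ((hasDerivAt_id z).const_mul (ee x)).const_add 1
  have h2 : HasDerivAt (fun z => 1 + ef x * z) (ef x) z := by
    simpa using ((hasDerivAt_id z).const_mul (ef x)).const_add 1
  have h3 := ((h1.div h2 hz).clog hu).div_const (2 * I * (Real.sin x : ℂ))
  refine h3.congr_deriv ?_
  rw [← ee_sub_ef] at hne ⊢
  have hnum' : ee x * (1 + ef x * z) - (1 + ee x * z) * ef x = ee x - ef x := by ring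
  rw [hnum', show ((fun z => 1 + ee x * z) / fun z => 1 + ef x * z) z =
    (1 + ee x * z) / (1 + ef x * z) from rfl]
  clear h3 h1 h2 hnum' hu
  generalize ee x - ef x = t at *
  generalize 1 + ee x * z = p at *
  generalize 1 + ef x * z = q at *
  have hpq : p / q ≠ 0 := div_ne_zero hnum hz
  field_simp

end

end Pool.Agent.MConv
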