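import Mathlib
import Pool.Agent.MConv.Strip

namespace Pool.Agent.MConv

open Metric Set Complex Filter
open scoped Topology ENNReal

section
variable (x : ℝ)

lemma uu_zero : uu x 0 = 1 := by simp [uu]

lemma uu_one (h : 1 + ef x ≠ 0) : uu x 1 = ee x := by
  rw [uu, mul_one, mul_one, div_eq_iff h, mul_add, mul_one, ee_mul_ef]
  ring

/-- boundary value -/
noncomputable def ww : ℂ := ((x / (2 * Real.sin x) : ℝ) : ℂ)

lemma ee_eq_exp : ee x = Complex.exp ((x : ℂ) * I) := by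
  apply Complex.ext
  · rw [Complex.exp_ofReal_mul_I_re]; rfl
  · rw [Complex.exp_ofReal_mul_I_im]; rfl

lemma strip_mem (hx0 : 0 < x) (hxp : x < Real.pi) : ff x ∈ ConvexMaps := by
  have hs : 0 < Real.sin x := Real.sin_pos_of_pos_of_lt_pi hx0 hxp
  have hder : ∀ z ∈ ball (0 : ℂ) 1,
      HasDerivAt (ff x) (1 / ((1 + ee x * z) * (1 + ef x * z))) z := by
    intro z hz
    rw [mem_ball_zero_iff] at hz
    exact hasDerivAt_ff x hs.ne' (den_ne x hz) (mem_slit x hx0 hxp (im_pos_of_ball x hs hz))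
  refine ⟨?_, ?_, ?_, ?_, ?_⟩
  · intro z hz
    exact (hder z hz).differentiableAt.differentiableWithinAt
  · intro z hz w hw h
    rw [mem_ball_zero_iff] at hz hw
    have h1 : Complex.log (uu x z) = Complex.log (uu x w) := by
      rw [← ff_mul x hs.ne', ← ff_mul x hs.ne', h]
    have hz' := Complex.slitPlane_ne_zero (mem_slit x hx0 hxp (im_pos_of_ball x hs hz))
    have hw' := Complex.slitPlane_ne_zero (mem_slit x hx0 hxp (im_pos_of_ball x hs hw))
    have h2 : uu x z = uu x w := by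
      rw [← Complex.exp_log hz', ← Complex.exp_log hw', h1]
    rw [uu, uu, div_eq_div_iff (den_ne x hz) (den_ne x hw)] at h2
    have h3 : (ee x - ef x) * (z - w) = 0 := by
      have := ee_mul_ef x
      linear_combination h2
    have he : ee x - ef x ≠ 0 := by
      rw [ee_sub_ef]
      simp only [ne_eq, mul_eq_zero, not_or]
      exact ⟨⟨two_ne_zero, I_ne_zero⟩, by exact_mod_cast hs.ne'⟩
    exact sub_eq_zero.mp ((mul_eq_zero.mp h3).resolve_left he)
  · rw [ff, uu_zero, Complex.log_one, zero_div]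
  · rw [(hder 0 (by simp)).deriv]; simp
  · rw [image_eq x hx0 hxp]
    have h1 : {ζ : ℂ | x - Real.pi < 2 * Real.sin x * ζ.re ∧ 2 * Real.sin x * ζ.re < x} =
        {ζ : ℂ | (x - Real.pi) / (2 * Real.sin x) < ζ.re} ∩
          {ζ : ℂ | ζ.re < x / (2 * Real.sin x)} := by
      ext ζ
      simp only [Set.mem_ofPred_eq, Set.mem_inter_iff]
      rw [div_lt_iff₀ (by positivity), lt_div_iff₀ (by positivity), mul_comm (ζ.re)]
    rw [h1]
    exact (convex_halfSpace_re_gt _).inter (convex_halfSpace_re_lt _)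

lemma ww_not_mem (hx0 : 0 < x) (hxp : x < Real.pi) : ww x ∉ ff x '' ball 0 1 := by
  have hs : 0 < Real.sin x := Real.sin_pos_of_pos_of_lt_pi hx0 hxp
  rw [image_eq x hx0 hxp]
  rintro ⟨_, h2⟩
  rw [ww, Complex.ofReal_re] at h2
  have : 2 * Real.sin x * (x / (2 * Real.sin x)) = x := by field_simp
  linarith

/-- the extremal candidate -/
noncomputable def gg (z : ℂ) : ℂ := ff x z / (1 - ff x z / ww x)

lemma gg_mem (hx0 : 0 < x) (hxp : x < Real.pi) : gg x ∈ HatClass :=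
  Or.inr ⟨ff x, strip_mem x hx0 hxp, ww x, ww_not_mem x hx0 hxp, rfl⟩

lemma ww_ne (hx0 : 0 < x) (hxp : x < Real.pi) : ww x ≠ 0 := by
  have hs : 0 < Real.sin x := Real.sin_pos_of_pos_of_lt_pi hx0 hxp
  rw [ww]
  have : x / (2 * Real.sin x) ≠ 0 := by positivity
  exact_mod_cast this

lemma one_sub_ne (hx0 : 0 < x) (hxp : x < Real.pi) {z : ℂ} (hz : z ∈ ball (0 : ℂ) 1) :
    1 - ff x z / ww x ≠ 0 := by
  intro h
  have h1 : ff x z / ww x = 1 := by linear_combination -h
  rw [div_eq_one_iff_eq (ww_ne x hx0 hxp)] at h1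
  exact ww_not_mem x hx0 hxp ⟨z, hz, h1⟩

lemma gg_diff (hx0 : 0 < x) (hxp : x < Real.pi) : DifferentiableOn ℂ (gg x) (ball 0 1) := by
  have h1 := (strip_mem x hx0 hxp).1
  exact h1.div ((differentiableOn_const _).sub (h1.div_const _))
    fun z hz => one_sub_ne x hx0 hxp hz

lemma norm_gg_le (hx0 : 0 < x) (hxp : x < Real.pi) {c : ℝ} {N : ℕ}
    (hc : ∀ n ≥ N, ‖coeff (gg x) n‖ ≤ c) {r : ℝ} (hr0 : 0 < r) (hr1 : r < 1) :
    (1 - r) * ‖gg x r‖ ≤ (1 - r) * (∑ n ∈ Finset.range N, ‖coeff (gg x) n‖) + c := by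
  have hc0 : 0 ≤ c := (norm_nonneg _).trans (hc N le_rfl)
  have hmem : (r : ℂ) ∈ ball (0 : ℂ) 1 := by
    rw [mem_ball_zero_iff, Complex.norm_real, Real.norm_of_nonneg hr0.le]; exact hr1
  have hsum := Complex.hasSum_taylorSeries_on_ball (gg_diff x hx0 hxp) hmem
  rw [← hsum.tsum_eq]
  have hb : HasSum (fun n : ℕ => (if n ∈ Finset.range N then ‖coeff (gg x) n‖ else 0) + c * r ^ n)
      ((∑ n ∈ Finset.range N, ‖coeff (gg x) n‖) + c * (1 - r)⁻¹) := by
    refine HasSum.add ?_ ((hasSum_geometric_of_lt_one hr0.le hr1).mul_left c)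
    have : HasSum (fun n : ℕ => if n ∈ Finset.range N then ‖coeff (gg x) n‖ else 0)
        (∑ n ∈ Finset.range N, if n ∈ Finset.range N then ‖coeff (gg x) n‖ else 0) :=
      hasSum_sum_of_ne_finset_zero fun n hn => by simp only [hn, if_false]
    rwa [Finset.sum_congr rfl (fun n hn => if_pos hn)] at this
  have hle := tsum_of_norm_bounded (f := fun n : ℕ =>
    ((n.factorial : ℂ))⁻¹ • ((r : ℂ) - 0) ^ n • iteratedDeriv n (gg x) 0) hb (by
      intro n
      have h1 : ‖((n.factorial : ℂ))⁻¹ • ((r : ℂ) - 0) ^ n • iteratedDeriv n (gg x) 0‖ =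
          ‖coeff (gg x) n‖ * r ^ n := by
        rw [smul_eq_mul, smul_eq_mul, sub_zero, coeff, norm_mul, norm_mul, norm_div, norm_inv,
          norm_pow, Complex.norm_real, Real.norm_of_nonneg hr0.le]
        field_simp
      rw [h1]
      have hrn : r ^ n ≤ 1 := pow_le_one₀ hr0.le hr1.le
      have hrn0 : 0 ≤ r ^ n := pow_nonneg hr0.le n
      by_cases hn : n ∈ Finset.range N
      · rw [if_pos hn]
        have : 0 ≤ c * r ^ n := mul_nonneg hc0 hrn0
        nlinarith [norm_nonneg (coeff (gg x) n)]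
      · rw [if_neg hn, zero_add]
        rw [Finset.mem_range, not_lt] at hn
        exact mul_le_mul_of_nonneg_right (hc n hn) hrn0)
  have h1r : 0 < 1 - r := by linarith
  calc (1 - r) * ‖∑' n : ℕ, ((n.factorial : ℂ))⁻¹ • ((r : ℂ) - 0) ^ n •
        iteratedDeriv n (gg x) 0‖ ≤
      (1 - r) * ((∑ n ∈ Finset.range N, ‖coeff (gg x) n‖) + c * (1 - r)⁻¹) :=
        mul_le_mul_of_nonneg_left hle h1r.le
    _ = _ := by field_simp

lemma tendsto_gg (hx0 : 0 < x) (hxp : x < Real.pi) :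
    Tendsto (fun r : ℝ => ((1 - r : ℝ) : ℂ) * gg x r) (𝓝[<] 1)
      (𝓝 (ww x * ww x * ((1 + ee x) * (1 + ef x)))) := by
  have hs : 0 < Real.sin x := Real.sin_pos_of_pos_of_lt_pi hx0 hxp
  have hef : 1 + ef x ≠ 0 := by
    intro h
    have := congrArg Complex.im h
    simp [ef] at this
    linarith
  have hee : 1 + ee x ≠ 0 := by
    intro h
    have := congrArg Complex.im h
    simp [ee] at this
    linarith
  have hslit : uu x 1 ∈ slitPlane := by
    rw [uu_one x hef, Complex.mem_slitPlane_iff]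
    right
    exact hs.ne'
  have hder : HasDerivAt (ff x) (1 / ((1 + ee x) * (1 + ef x))) ((1 : ℝ) : ℂ) := by
    have := hasDerivAt_ff x hs.ne' (z := 1) (by rwa [mul_one]) hslit
    simpa using this
  have hf1 : ff x 1 = ww x := by
    have hne : (2 * I * (Real.sin x : ℂ)) ≠ 0 := by
      simp only [ne_eq, mul_eq_zero, not_or]
      exact ⟨⟨two_ne_zero, I_ne_zero⟩, by exact_mod_cast hs.ne'⟩
    have hsc : (Real.sin x : ℂ) ≠ 0 := by exact_mod_cast hs.ne'
    rw [ff, uu_one x hef, ee_eq_exp, Complex.log_exp (by simp; linarith [Real.pi_pos])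
      (by simp; linarith), ww, div_eq_iff hne]
    push_cast
    have hsc' : Complex.sin x ≠ 0 := by rwa [← Complex.ofReal_sin]
    field_simp
  have hR := hder.comp_ofReal
  have hslope := hasDerivAt_iff_tendsto_slope.mp hR
  have hsl : Tendsto (slope (fun y : ℝ => ff x y) 1) (𝓝[<] 1)
      (𝓝 (1 / ((1 + ee x) * (1 + ef x)))) :=
    hslope.mono_left (nhdsWithin_mono _ fun y hy => ne_of_lt hy)
  have hfc : Tendsto (fun y : ℝ => ff x y) (𝓝[<] 1) (𝓝 (ww x)) := by
    have := hR.continuousAt.tendsto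
    rw [Complex.ofReal_one, hf1] at this
    exact this.mono_left nhdsWithin_le_nhds
  have hprod : Tendsto (fun r : ℝ => ww x * ff x r / slope (fun y : ℝ => ff x y) 1 r) (𝓝[<] 1)
      (𝓝 (ww x * ww x / (1 / ((1 + ee x) * (1 + ef x))))) :=
    (tendsto_const_nhds.mul hfc).div hsl (by
      rw [one_div]; exact inv_ne_zero (mul_ne_zero hee hef))
  have hval : ww x * ww x / (1 / ((1 + ee x) * (1 + ef x))) =
      ww x * ww x * ((1 + ee x) * (1 + ef x)) := by rw [one_div, div_inv_eq_mul]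
  rw [hval] at hprod
  refine hprod.congr' ?_
  have hpos : ∀ᶠ r : ℝ in 𝓝[<] 1, 0 < r :=
    (Ioi_mem_nhds (by norm_num : (0 : ℝ) < 1)) |> fun h => mem_nhdsWithin_of_mem_nhds h
  filter_upwards [self_mem_nhdsWithin, hpos] with r hr hr0
  have hr1 : r < 1 := hr
  have hmem : (r : ℂ) ∈ ball (0 : ℂ) 1 := by
    rw [mem_ball_zero_iff, Complex.norm_real, Real.norm_of_nonneg hr0.le]; exact hr1
  have hne := one_sub_ne x hx0 hxp hmem
  have hw := ww_ne x hx0 hxp
  have hfw : ww x - ff x r ≠ 0 := by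
    intro h
    apply hne
    rw [sub_eq_zero] at h
    rw [← h, div_self hw, sub_self]
  have h1r : ((1 - r : ℝ) : ℂ) ≠ 0 := by exact_mod_cast (sub_pos.mpr hr1).ne'
  have hslr : slope (fun y : ℝ => ff x y) 1 r = (ww x - ff x r) / ((1 - r : ℝ) : ℂ) := by
    rw [slope_def_module, Complex.ofReal_one, hf1, Complex.real_smul]
    push_cast at h1r ⊢
    have h2 : (r : ℂ) - 1 ≠ 0 := by
      intro h; apply h1r; linear_combination -h
    field_simp
    ring
  rw [hslr, gg]
  have h3 : 1 - ff x r / ww x = (ww x - ff x r) / ww x := by field_simp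
  rw [h3]
  field_simp

lemma lower (hx0 : 0 < x) (hxp : x < Real.pi) {c : ℝ} {N : ℕ}
    (hc : ∀ n ≥ N, ‖coeff (gg x) n‖ ≤ c) : x ^ 2 / 4 ≤ c := by
  have hs : 0 < Real.sin x := Real.sin_pos_of_pos_of_lt_pi hx0 hxp
  have h1 := (tendsto_gg x hx0 hxp).norm
  have hval : ‖ww x * ww x * ((1 + ee x) * (1 + ef x))‖ = x ^ 2 / (2 * (1 - Real.cos x)) := by
    have h2 : (1 + ee x) * (1 + ef x) = ((2 * (1 + Real.cos x) : ℝ) : ℂ) := by
      have h3 : (1 + ee x) * (1 + ef x) = 2 + (ee x + ef x) := by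
        have := ee_mul_ef x
        linear_combination this
      rw [h3]
      apply Complex.ext
      · simp only [ee, ef, Complex.add_re, Complex.re_ofNat, Complex.ofReal_re]; ring
      · simp only [ee, ef, Complex.add_im, Complex.im_ofNat, Complex.ofReal_im]; ring
    rw [h2, ww, ← Complex.ofReal_mul, ← Complex.ofReal_mul, Complex.norm_real]
    have hcos : -1 < Real.cos x := by
      rw [← Real.cos_pi]
      exact Real.cos_lt_cos_of_nonneg_of_le_pi hx0.le le_rfl hxp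
    have hcos1 : Real.cos x < 1 := by
      rw [← Real.cos_zero]
      exact Real.cos_lt_cos_of_nonneg_of_le_pi le_rfl hxp.le hx0
    have hp1 : 0 < 1 + Real.cos x := by linarith
    have hp2 : 0 < 1 - Real.cos x := by linarith
    rw [Real.norm_of_nonneg (by positivity)]
    have h4 : Real.sin x ^ 2 = (1 - Real.cos x) * (1 + Real.cos x) := by
      nlinarith [Real.sin_sq_add_cos_sq x]
    have h5 : x / (2 * Real.sin x) * (x / (2 * Real.sin x)) * (2 * (1 + Real.cos x)) =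
        x ^ 2 * (1 + Real.cos x) / (2 * Real.sin x ^ 2) := by
      field_simp
      try ring
    rw [h5, h4]
    field_simp
  rw [hval] at h1
  have h2 : Tendsto (fun r : ℝ => (1 - r) * (∑ n ∈ Finset.range N, ‖coeff (gg x) n‖) + c)
      (𝓝[<] 1) (𝓝 c) := by
    have h3 : Tendsto (fun r : ℝ => (1 - r) * (∑ n ∈ Finset.range N, ‖coeff (gg x) n‖) + c)
        (𝓝 1) (𝓝 ((1 - 1) * (∑ n ∈ Finset.range N, ‖coeff (gg x) n‖) + c)) := by
      apply Continuous.tendsto
      fun_prop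
    rw [sub_self, zero_mul, zero_add] at h3
    exact h3.mono_left nhdsWithin_le_nhds
  have h4 : x ^ 2 / (2 * (1 - Real.cos x)) ≤ c := by
    refine le_of_tendsto_of_tendsto h1 h2 ?_
    have hpos : ∀ᶠ r : ℝ in 𝓝[<] 1, 0 < r :=
      (Ioi_mem_nhds (by norm_num : (0 : ℝ) < 1)) |> fun h => mem_nhdsWithin_of_mem_nhds h
    filter_upwards [self_mem_nhdsWithin, hpos] with r hr hr0
    have hr1 : r < 1 := hr
    rw [norm_mul, Complex.norm_real, Real.norm_of_nonneg (by linarith)]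
    exact norm_gg_le x hx0 hxp hc hr0 hr1
  have hcos1 : Real.cos x < 1 := by
    rw [← Real.cos_zero]
    exact Real.cos_lt_cos_of_nonneg_of_le_pi le_rfl hxp.le hx0
  have hcos2 := Real.neg_one_le_cos x
  refine le_trans ?_ h4
  rw [div_le_div_iff₀ (by norm_num) (by linarith)]
  nlinarith [sq_nonneg x]

end

theorem exists_large {c : ℝ} (hc : c < Real.pi ^ 2 / 4) (N : ℕ) :
    ∃ n ≥ N, ∃ g ∈ HatClass, c < ‖coeff g n‖ := by
  have hpi := Real.pi_pos
  -- choose x
  obtain ⟨x, hx0, hxp, hx⟩ : ∃ x : ℝ, 0 < x ∧ x < Real.pi ∧ c < x ^ 2 / 4 := by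
    have hcont : Continuous fun x : ℝ => x ^ 2 / 4 := by fun_prop
    have h1 : ∀ᶠ x : ℝ in 𝓝[<] Real.pi, c < x ^ 2 / 4 :=
      ((hcont.tendsto Real.pi).mono_left nhdsWithin_le_nhds).eventually_const_lt hc
    have h2 : ∀ᶠ x : ℝ in 𝓝[<] Real.pi, 0 < x := mem_nhdsWithin_of_mem_nhds (Ioi_mem_nhds hpi)
    obtain ⟨x, ha, hb, hc'⟩ := (h1.and (h2.and self_mem_nhdsWithin)).exists
    exact ⟨x, hb, hc', ha⟩
  by_contra hcon
  push Not at hcon
  have := lower x hx0 hxp (c := c) (N := N) fun n hn => hcon n hn (gg x) (gg_mem x hx0 hxp)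
  linarith

theorem main : ENNReal.ofReal (Real.pi ^ 2 / 4) ≤ limsup A atTop ∧
    ENNReal.ofReal (Real.pi ^ 2 / 4) ≤ B := by
  have key : ∀ c : ℝ, c < Real.pi ^ 2 / 4 → ∀ N : ℕ, ∃ n ≥ N, ENNReal.ofReal c ≤ A n := by
    intro c hc N
    obtain ⟨n, hn, g, hg, h⟩ := exists_large hc N
    exact ⟨n, hn, (ENNReal.ofReal_le_ofReal h.le).trans
      (le_iSup₂_of_le (f := fun g (_ : g ∈ HatClass) => ENNReal.ofReal ‖coeff g n‖) g hg le_rfl)⟩
  have hlt : ∀ t : ℝ≥0∞, t < ENNReal.ofReal (Real.pi ^ 2 / 4) →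
      ∃ c : ℝ, c < Real.pi ^ 2 / 4 ∧ t ≤ ENNReal.ofReal c := by
    intro t ht
    have ht' : t ≠ ⊤ := ne_top_of_lt ht
    refine ⟨t.toReal, ?_, ?_⟩
    · have := (ENNReal.toReal_lt_toReal ht' ENNReal.ofReal_ne_top).mpr ht
      rwa [ENNReal.toReal_ofReal (by positivity)] at this
    · rw [ENNReal.ofReal_toReal ht']
  constructor
  · refine le_of_forall_lt fun t ht => ?_
    obtain ⟨t', htt', ht'⟩ := exists_between ht
    obtain ⟨c, hc, htc⟩ := hlt t' ht'
    refine lt_of_lt_of_le htt' ?_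
    refine le_limsup_of_frequently_le ?_
    rw [frequently_atTop]
    intro N
    obtain ⟨n, hn, h⟩ := key c hc N
    exact ⟨n, hn, htc.trans h⟩
  · refine le_of_forall_lt fun t ht => ?_
    obtain ⟨t', htt', ht'⟩ := exists_between ht
    obtain ⟨c, hc, htc⟩ := hlt t' ht'
    obtain ⟨n, hn, h⟩ := key c hc 2
    exact lt_of_lt_of_le htt' (htc.trans (h.trans
      (le_iSup₂_of_le (f := fun n (_ : n ≥ 2) => A n) n hn le_rfl)))

end Pool.Agent.MConv
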